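import Mathlib

/-!
# Fractional Haemers bounds are Kneser-normalised

For every field `F` the fractional Haemers bound over `F` is a spectral point, and its value at the
complement of the Kneser graph `K (p : q)` is `p / q` for `p ≥ 2 q ≥ 2`.
-/

namespace Pool.Agent.Results.MP_0b002e_co.FractionalHaemers

open Finset

/-- `M` is a `d`-representation of `G` over `F`: the diagonal blocks are identity matrices and the
blocks of different nonadjacent vertices are zero. -/
def IsRep {F : Type*} [Field F] {V : Type} (G : SimpleGraph V) (d : ℕ)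
    (M : Matrix (V × Fin d) (V × Fin d) F) : Prop :=
  (∀ v i j, M (v, i) (v, j) = if i = j then 1 else 0) ∧
    ∀ u v, u ≠ v → ¬ G.Adj u v → ∀ i j, M (u, i) (v, j) = 0

/-- The fractional Haemers bound of `G` over `F`. -/
noncomputable def haemers (F : Type*) [Field F] (V : Type) [Fintype V] (G : SimpleGraph V) : ℝ :=
  sInf {x : ℝ | ∃ (d : ℕ) (M : Matrix (V × Fin d) (V × Fin d) F), 1 ≤ d ∧ IsRep G d M ∧
    x = (M.rank : ℝ) / d}

section Arcs

variable (p q : ℕ) [NeZero p]

/-- the cyclic interval of length `q` which starts at `a` -/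
def arc (a : ℕ) : Finset (Fin p) := (range q).image fun t => Fin.ofNat p (a + t)

theorem arc_card (hq : q ≤ p) (a : ℕ) : (arc p q a).card = q := by
  rw [arc, card_image_of_injOn, card_range]
  intro t ht t' ht' h
  have ht := Finset.mem_range.1 (Finset.mem_coe.1 ht)
  have ht' := Finset.mem_range.1 (Finset.mem_coe.1 ht')
  have h1 : (a + t) % p = (a + t') % p := by
    have := congrArg Fin.val h
    simpa using this
  have h2 : a + t ≡ a + t' [MOD p] := h1
  have h3 := Nat.ModEq.add_left_cancel' a h2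
  exact Nat.ModEq.eq_of_lt_of_lt h3 (by omega) (by omega)

theorem arc_disjoint {a b : ℕ} (h1 : a + q ≤ b) (h2 : b + q ≤ a + p) :
    Disjoint (arc p q a) (arc p q b) := by
  rw [Finset.disjoint_left]
  intro x hx hx'
  rw [arc, mem_image] at hx hx'
  obtain ⟨t, ht, rfl⟩ := hx
  obtain ⟨t', ht', h⟩ := hx'
  rw [Finset.mem_range] at ht ht'
  have h3 : (b + t') % p = (a + t) % p := by
    have := congrArg Fin.val h
    simpa using this
  have h4 : a + t ≡ b + t' [MOD p] := h3.symm
  have h5 := (Nat.modEq_iff_dvd' (by omega)).1 h4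
  have h6 := Nat.le_of_dvd (by omega) h5
  omega

theorem arc_add (a : ℕ) : arc p q (a + p) = arc p q a := by
  unfold arc
  congr 1
  funext t
  apply Fin.ext
  simp [add_right_comm a p t]

variable {p q}

/-- the cyclic interval as a vertex of the Kneser graph -/
def av (hq : q ≤ p) (a : ℕ) : {s : Finset (Fin p) // s.card = q} := ⟨arc p q a, arc_card p q hq a⟩

theorem av_add (hq : q ≤ p) (a : ℕ) : av hq (a + p) = av hq a := Subtype.ext (arc_add p q a)

/-- `j` consecutive cyclic intervals -/
def win (hq : q ≤ p) (j a : ℕ) : Finset {s : Finset (Fin p) // s.card = q} :=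
  (range j).image fun t => av hq (a + t)

theorem win_add (hq : q ≤ p) (j a : ℕ) : win hq j (a + p) = win hq j a := by
  unfold win
  refine Finset.image_congr fun t _ => ?_
  rw [add_right_comm, av_add]

theorem mem_win (hq : q ≤ p) {j a t : ℕ} (ht : t < j) : av hq (a + t) ∈ win hq j a :=
  mem_image_of_mem _ (Finset.mem_range.2 ht)

theorem win_union (hq : q ≤ p) (j a : ℕ) :
    win hq (j + 1) a ∪ win hq (j + 1) (a + 1) = win hq (j + 2) a := by
  ext S
  rw [mem_union]
  constructor
  · rintro (h | h)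
    · rw [win, mem_image] at h
      obtain ⟨t, ht, rfl⟩ := h
      exact mem_win hq (by have := Finset.mem_range.1 ht; omega)
    · rw [win, mem_image] at h
      obtain ⟨t, ht, rfl⟩ := h
      rw [add_assoc, add_comm 1 t]
      exact mem_win hq (by have := Finset.mem_range.1 ht; omega)
  · intro h
    rw [win, mem_image] at h
    obtain ⟨t, ht, rfl⟩ := h
    have ht' := Finset.mem_range.1 ht
    rcases Nat.lt_or_ge t (j + 1) with h1 | h1
    · exact Or.inl (mem_win hq h1)
    · right
      obtain ⟨s, rfl⟩ := Nat.exists_eq_add_of_le' (show 1 ≤ t by omega)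
      rw [add_comm s 1, ← add_assoc]
      exact mem_win hq (by omega)

theorem win_inter (hq : q ≤ p) (j a : ℕ) :
    win hq j (a + 1) ⊆ win hq (j + 1) a ∩ win hq (j + 1) (a + 1) := by
  intro S h
  rw [win, mem_image] at h
  obtain ⟨t, ht, rfl⟩ := h
  have ht' := Finset.mem_range.1 ht
  rw [mem_inter]
  refine ⟨?_, mem_win hq (by omega)⟩
  rw [add_assoc, add_comm 1 t]
  exact mem_win hq (by omega)

end Arcs

/-- a concave sequence lies above its chords -/
theorem chord (G : ℕ → ℝ) (h : ∀ j, G (j + 2) + G j ≤ 2 * G (j + 1)) (q s : ℕ) (hs : s ≤ q) :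
    ((q : ℝ) - s) * G 0 + s * G q ≤ q * G s := by
  have hanti : Antitone fun j => G (j + 1) - G j := antitone_nat_of_succ_le fun j => by
    have := h j
    linarith
  have h1 : ∀ s : ℕ, (s : ℝ) * (G (s + 1) - G s) ≤ G s - G 0 := by
    intro s
    rw [← Finset.sum_range_sub]
    calc (s : ℝ) * (G (s + 1) - G s) = ∑ _i ∈ range s, (G (s + 1) - G s) := by
          rw [Finset.sum_const, card_range, nsmul_eq_mul]
      _ ≤ _ := Finset.sum_le_sum fun i hi => hanti (Finset.mem_range.1 hi).le
  have h2 : ∀ s k : ℕ, G (s + k) - G s ≤ k * (G (s + 1) - G s) := by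
    intro s k
    have e : G (s + k) - G s = ∑ i ∈ range k, (G (s + i + 1) - G (s + i)) := by
      have := Finset.sum_range_sub (fun i => G (s + i)) k
      simp only [add_zero] at this
      rw [← this]
      rfl
    rw [e]
    calc _ ≤ ∑ _i ∈ range k, (G (s + 1) - G s) :=
          Finset.sum_le_sum fun i _ => hanti (Nat.le_add_right s i)
      _ = _ := by rw [Finset.sum_const, card_range, nsmul_eq_mul]
  obtain ⟨k, rfl⟩ := Nat.exists_eq_add_of_le hs
  have h3 := mul_le_mul_of_nonneg_left (h1 s) (Nat.cast_nonneg (α := ℝ) k)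
  have h4 := mul_le_mul_of_nonneg_left (h2 s k) (Nat.cast_nonneg (α := ℝ) s)
  push_cast
  nlinarith

/-- **The main inequality**, for arbitrary monotone submodular functions of families of `q`-sets. -/
theorem poly_bound {p q : ℕ} (hq : 1 ≤ q) (hp : 2 * q ≤ p) (d : ℝ)
    (D : Finset {s : Finset (Fin p) // s.card = q} → ℝ) (h0 : 0 ≤ D ∅)
    (hmono : ∀ X Y, X ⊆ Y → D X ≤ D Y)
    (hsub : ∀ X Y, D (X ∪ Y) + D (X ∩ Y) ≤ D X + D Y)
    (hdis : ∀ S X, (∀ T ∈ X, Disjoint S.1 T.1) → D X + d ≤ D (insert S X)) :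
    p * d ≤ q * D univ := by
  have hp0 : 0 < p := by omega
  have : NeZero p := ⟨by omega⟩
  have hqp : q ≤ p := by omega
  set g : ℕ → ℝ := fun j => ∑ a ∈ range p, D (win hqp (j + 1) a) with hg
  have hshift : ∀ j, ∑ a ∈ range p, D (win hqp j (a + 1)) = ∑ a ∈ range p, D (win hqp j a) := by
    intro j
    have h1 := Finset.sum_range_succ (fun a => D (win hqp j a)) p
    have h2 := Finset.sum_range_succ' (fun a => D (win hqp j a)) p
    have h3 : win hqp j p = win hqp j 0 := by
      have := win_add hqp j 0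
      rwa [zero_add] at this
    rw [h3] at h1
    linarith
  have hconc : ∀ j, g (j + 2) + g j ≤ 2 * g (j + 1) := by
    intro j
    have h1 : ∀ a ∈ range p, D (win hqp (j + 3) a) + D (win hqp (j + 1) (a + 1)) ≤
        D (win hqp (j + 2) a) + D (win hqp (j + 2) (a + 1)) := by
      intro a _
      have h2 := hsub (win hqp (j + 2) a) (win hqp (j + 2) (a + 1))
      rw [win_union hqp (j + 1) a] at h2
      have h3 := hmono _ _ (win_inter hqp (j + 1) a)
      linarith
    have h2 := Finset.sum_le_sum h1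
    rw [Finset.sum_add_distrib, Finset.sum_add_distrib, hshift, hshift] at h2
    simp only [hg]
    linarith
  have hd1 : ∀ a, d ≤ D {av hqp a} := by
    intro a
    have := hdis (av hqp a) ∅ (fun T hT => absurd hT (notMem_empty T))
    rw [insert_empty_eq] at this
    linarith
  have hg0 : p * d ≤ g 0 := by
    have h1 : ∀ a ∈ range p, d ≤ D (win hqp 1 a) := by
      intro a _
      refine (hd1 a).trans (hmono _ _ ?_)
      rw [singleton_subset_iff]
      exact mem_win hqp (t := 0) (by omega)
    have h2 := Finset.sum_le_sum h1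
    rw [Finset.sum_const, card_range, nsmul_eq_mul] at h2
    exact h2
  have hgq : 2 * p * d ≤ g q := by
    have h1 : ∀ a ∈ range p, 2 * d ≤ D (win hqp (q + 1) a) := by
      intro a _
      have h2 := hdis (av hqp a) {av hqp (a + q)} (by
        intro T hT
        rw [mem_singleton] at hT
        subst hT
        exact arc_disjoint p q le_rfl (by omega))
      have h3 : D (insert (av hqp a) {av hqp (a + q)}) ≤ D (win hqp (q + 1) a) := by
        refine hmono _ _ ?_
        rw [insert_subset_iff, singleton_subset_iff]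
        exact ⟨mem_win hqp (t := 0) (by omega), mem_win hqp (by omega)⟩
      have := hd1 (a + q)
      linarith
    have h2 := Finset.sum_le_sum h1
    rw [Finset.sum_const, card_range, nsmul_eq_mul] at h2
    simp only [hg]
    linarith
  -- decomposition of `p`
  obtain ⟨k, s, hs, hk⟩ : ∃ k s, s < q ∧ p = (k + 2) * q + s := by
    have h1 : 2 ≤ p / q := (Nat.le_div_iff_mul_le (by omega)).2 hp
    obtain ⟨k, hk⟩ := Nat.exists_eq_add_of_le' h1
    refine ⟨k, p % q, Nat.mod_lt _ (by omega), ?_⟩
    rw [← hk, mul_comm]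
    exact (Nat.div_add_mod p q).symm
  have hch := chord g hconc q s hs.le
  -- further disjoint sets
  have hext : ∀ a, ∀ m ≤ k + 1, D (win hqp (s + 1) a) + m * d ≤
      D (win hqp (s + 1) a ∪ (range m).image fun i => av hqp (a + s + q * (i + 1))) := by
    intro a m
    induction m with
    | zero => intro _; simp
    | succ m ih =>
      intro hm
      have h1 := ih (by omega)
      have h2 := hdis (av hqp (a + s + q * (m + 1)))
        (win hqp (s + 1) a ∪ (range m).image fun i => av hqp (a + s + q * (i + 1))) (by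
          intro T hT
          rw [mem_union] at hT
          have e1 : q * (m + 1) + q ≤ (k + 2) * q := by
            calc q * (m + 1) + q = (m + 2) * q := by ring
              _ ≤ (k + 2) * q := Nat.mul_le_mul_right _ (by omega)
          have e2 : q ≤ q * (m + 1) := Nat.le_mul_of_pos_right _ (by omega)
          rcases hT with hT | hT
          · rw [win, mem_image] at hT
            obtain ⟨t, ht, rfl⟩ := hT
            have ht' := Finset.mem_range.1 ht
            exact (arc_disjoint p q (by omega) (by omega)).symm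
          · rw [mem_image] at hT
            obtain ⟨i, hi, rfl⟩ := hT
            have hi' := Finset.mem_range.1 hi
            have e3 : q * (i + 1) + q ≤ q * (m + 1) := by
              calc q * (i + 1) + q = q * (i + 2) := by ring
                _ ≤ q * (m + 1) := Nat.mul_le_mul_left _ (by omega)
            exact (arc_disjoint p q (by omega) (by omega)).symm)
      have h3 : insert (av hqp (a + s + q * (m + 1)))
          (win hqp (s + 1) a ∪ (range m).image fun i => av hqp (a + s + q * (i + 1))) =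
          win hqp (s + 1) a ∪ (range (m + 1)).image fun i => av hqp (a + s + q * (i + 1)) := by
        rw [range_add_one, image_insert, union_insert]
      rw [h3] at h2
      push_cast
      linarith
  have hfin : ∀ a ∈ range p, D (win hqp (s + 1) a) + (k + 1) * d ≤ D univ := by
    intro a _
    have h1 := hext a (k + 1) le_rfl
    push_cast at h1
    exact h1.trans (hmono _ _ (subset_univ _))
  have h1 := Finset.sum_le_sum hfin
  rw [Finset.sum_add_distrib, Finset.sum_const, Finset.sum_const, card_range, nsmul_eq_mul,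
    nsmul_eq_mul] at h1
  have h2 : g s + p * ((k + 1) * d) ≤ p * D univ := h1
  have hpR : (0 : ℝ) < p := by exact_mod_cast hp0
  have hsR : (s : ℝ) ≤ q := by exact_mod_cast hs.le
  have hkR : (p : ℝ) = (k + 2) * q + s := by exact_mod_cast hk
  have h3 : ((q : ℝ) - s) * (p * d) + s * (2 * p * d) ≤ q * g s := by
    have e1 := mul_le_mul_of_nonneg_left hg0 (show (0 : ℝ) ≤ (q : ℝ) - s by linarith)
    have e2 := mul_le_mul_of_nonneg_left hgq (Nat.cast_nonneg (α := ℝ) s)
    linarith
  have h4 : (q : ℝ) * (g s + p * ((k + 1) * d)) ≤ q * (p * D univ) :=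
    mul_le_mul_of_nonneg_left h2 (Nat.cast_nonneg q)
  have h5 : (p : ℝ) * (p * d) ≤ p * (q * D univ) := by
    have e : (p : ℝ) * (p * d) = ((q : ℝ) - s) * (p * d) + s * (2 * p * d) +
        q * (p * ((k + 1) * d)) := by
      have : (p : ℝ) * (p * d) = ((k + 2) * q + s) * (p * d) := by rw [← hkR]
      rw [this]
      ring
    rw [e]
    linarith
  exact le_of_mul_le_mul_left h5 hpR

section Rank

set_option linter.unusedSectionVars false

variable {F : Type*} [Field F] {V : Type} [Fintype V] [DecidableEq V] {d : ℕ}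

/-- the span of the columns of the vertices in `X` -/
def W (M : Matrix (V × Fin d) (V × Fin d) F) (X : Finset V) : Submodule F (V × Fin d → F) :=
  Submodule.span F {c | ∃ v ∈ X, ∃ j, c = fun r => M r (v, j)}

theorem W_mono (M : Matrix (V × Fin d) (V × Fin d) F) {X Y : Finset V} (h : X ⊆ Y) :
    W M X ≤ W M Y := by
  refine Submodule.span_mono ?_
  rintro c ⟨v, hv, j, rfl⟩
  exact ⟨v, h hv, j, rfl⟩

theorem W_union (M : Matrix (V × Fin d) (V × Fin d) F) (X Y : Finset V) :
    W M (X ∪ Y) = W M X ⊔ W M Y := by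
  unfold W
  rw [← Submodule.span_union]
  congr 1
  ext c
  constructor
  · rintro ⟨v, hv, j, rfl⟩
    rcases mem_union.1 hv with hv | hv
    · exact Or.inl ⟨v, hv, j, rfl⟩
    · exact Or.inr ⟨v, hv, j, rfl⟩
  · rintro (⟨v, hv, j, rfl⟩ | ⟨v, hv, j, rfl⟩)
    · exact ⟨v, mem_union_left _ hv, j, rfl⟩
    · exact ⟨v, mem_union_right _ hv, j, rfl⟩

theorem W_univ (M : Matrix (V × Fin d) (V × Fin d) F) : Module.finrank F (W M univ) = M.rank := by
  have hset : {c : V × Fin d → F | ∃ v ∈ (univ : Finset V), ∃ j, c = fun r => M r (v, j)} =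
      Set.range M.col := by
    ext c
    constructor
    · rintro ⟨v, -, j, rfl⟩
      exact ⟨(v, j), rfl⟩
    · rintro ⟨⟨v, j⟩, rfl⟩
      exact ⟨v, mem_univ _, j, rfl⟩
  rw [Matrix.rank_eq_finrank_span_cols, W, hset]

theorem W_insert {G : SimpleGraph V} {M : Matrix (V × Fin d) (V × Fin d) F} (hM : IsRep G d M)
    (S : V) (X : Finset V) (h : ∀ T ∈ X, S ≠ T ∧ ¬ G.Adj S T) :
    Module.finrank F (W M X) + d ≤ Module.finrank F (W M (insert S X)) := by
  set W' := W M (insert S X) with hW'
  let ρ : (V × Fin d → F) →ₗ[F] (Fin d → F) := LinearMap.funLeft F F fun i => (S, i)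
  have hρ : ∀ (c : V × Fin d → F) (i : Fin d), ρ c i = c (S, i) := fun _ _ => rfl
  have h1 : W M X ≤ LinearMap.ker ρ := by
    refine Submodule.span_le.2 ?_
    rintro c ⟨T, hT, j, rfl⟩
    rw [SetLike.mem_coe, LinearMap.mem_ker]
    funext i
    rw [hρ]
    exact hM.2 S T (h T hT).1 (h T hT).2 i j
  have h2 : LinearMap.range (ρ.domRestrict W') = ⊤ := by
    rw [eq_top_iff, ← (Pi.basisFun F (Fin d)).span_eq, Submodule.span_le]
    rintro _ ⟨j, rfl⟩
    refine ⟨⟨fun r => M r (S, j), Submodule.subset_span ⟨S, mem_insert_self _ _, j, rfl⟩⟩, ?_⟩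
    funext i
    rw [LinearMap.domRestrict_apply, hρ]
    simp only [hM.1, Pi.basisFun_apply, Pi.single_apply]
  have h3 := LinearMap.finrank_range_add_finrank_ker (ρ.domRestrict W')
  rw [h2, finrank_top, Module.finrank_fin_fun] at h3
  have h4 : Module.finrank F (W M X) ≤ Module.finrank F (LinearMap.ker (ρ.domRestrict W')) := by
    have hle : W M X ≤ W' := W_mono M (subset_insert _ _)
    rw [← (Submodule.comapSubtypeEquivOfLe hle).finrank_eq]
    refine Submodule.finrank_mono ?_
    intro x hx
    rw [Submodule.mem_comap] at hx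
    rw [LinearMap.mem_ker, LinearMap.domRestrict_apply]
    exact LinearMap.mem_ker.1 (h1 hx)
  omega

end Rank

theorem haemers_le {F : Type*} [Field F] {V : Type} [Fintype V] {G : SimpleGraph V} {d : ℕ}
    (hd : 1 ≤ d) {M : Matrix (V × Fin d) (V × Fin d) F} (hM : IsRep G d M) :
    haemers F V G ≤ (M.rank : ℝ) / d := by
  refine csInf_le ⟨0, ?_⟩ ⟨d, M, hd, hM, rfl⟩
  rintro x ⟨d, M, _, _, rfl⟩
  positivity

theorem le_haemers {F : Type*} [Field F] {V : Type} [Fintype V] {G : SimpleGraph V} {c : ℝ}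
    (h : ∀ (d : ℕ) (M : Matrix (V × Fin d) (V × Fin d) F), 1 ≤ d → IsRep G d M →
      c * d ≤ M.rank) : c ≤ haemers F V G := by
  classical
  refine le_csInf ?_ ?_
  · refine ⟨_, 1, 1, le_rfl, ⟨?_, ?_⟩, rfl⟩
    · intro v i j
      rw [Matrix.one_apply]
      simp
    · intro u v huv _ i j
      rw [Matrix.one_apply_ne]
      exact fun h => huv (Prod.ext_iff.1 h).1
  · rintro x ⟨d, M, hd, hM, rfl⟩
    rw [le_div_iff₀ (by exact_mod_cast hd)]
    exact h d M hd hM

theorem le_haemers' {F : Type*} [Field F] {V : Type} [Fintype V] {G : SimpleGraph V} {c : ℝ}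
    (h : ∀ (d : ℕ) (M : Matrix (V × Fin d) (V × Fin d) F), 1 ≤ d → IsRep G d M →
      c ≤ (M.rank : ℝ) / d) : c ≤ haemers F V G :=
  le_haemers fun d M hd hM => (le_div_iff₀ (by exact_mod_cast hd)).1 (h d M hd hM)

/-- the Kneser graph -/
abbrev kneser (p q : ℕ) : SimpleGraph {s : Finset (Fin p) // s.card = q} :=
  SimpleGraph.fromRel fun s t => Disjoint s.1 t.1

/-- the elements of a `q`-set in increasing order -/
def el {p q : ℕ} (s : {s : Finset (Fin p) // s.card = q}) : Fin q → Fin p := s.1.orderEmbOfFin s.2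

/-- the incidence matrix -/
def inc (F : Type*) [Field F] (p q : ℕ) :
    Matrix ({s : Finset (Fin p) // s.card = q} × Fin q) (Fin p) F :=
  Matrix.of fun r x => if el r.1 r.2 = x then 1 else 0

theorem inc_mul (F : Type*) [Field F] (p q : ℕ) (r r' : {s : Finset (Fin p) // s.card = q} × Fin q) :
    (inc F p q * (inc F p q).transpose) r r' = if el r.1 r.2 = el r'.1 r'.2 then 1 else 0 := by
  rw [Matrix.mul_apply]
  simp only [inc, Matrix.transpose_apply, Matrix.of_apply, ite_mul, one_mul, zero_mul,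
    Finset.sum_ite_eq, mem_univ, if_true]
  by_cases h : el r.1 r.2 = el r'.1 r'.2
  · rw [if_pos h, if_pos h.symm]
  · rw [if_neg h, if_neg fun h' => h h'.symm]

theorem haemers_kneser (F : Type*) [Field F] (p q : ℕ) (hq : 1 ≤ q) (hp : 2 * q ≤ p) :
    haemers F _ (kneser p q)ᶜ = (p : ℝ) / q := by
  have hqR : (0 : ℝ) < q := by exact_mod_cast hq
  apply le_antisymm
  · -- the incidence representation
    have hM : IsRep (kneser p q)ᶜ q (inc F p q * (inc F p q).transpose) := by
      refine ⟨fun s i j => ?_, fun s t hst hadj i j => ?_⟩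
      · rw [inc_mul]
        have : el s i = el s j ↔ i = j := (s.1.orderEmbOfFin s.2).injective.eq_iff
        simp only [this]
      · rw [inc_mul, if_neg]
        intro h
        apply hadj
        rw [SimpleGraph.compl_adj]
        refine ⟨hst, fun hk => ?_⟩
        rw [SimpleGraph.fromRel_adj] at hk
        have h1 : el s i ∈ s.1 := Finset.orderEmbOfFin_mem _ _ _
        have h2 : el t j ∈ t.1 := Finset.orderEmbOfFin_mem _ _ _
        simp only at h
        rw [h] at h1
        rcases hk.2 with hd | hd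
        · exact Finset.disjoint_left.1 hd h1 h2
        · exact Finset.disjoint_left.1 hd h2 h1
    refine (haemers_le hq hM).trans ?_
    have h1 : (inc F p q * (inc F p q).transpose).rank ≤ p := by
      refine (Matrix.rank_mul_le_left _ _).trans ?_
      refine (Matrix.rank_le_card_width (inc F p q)).trans ?_
      rw [Fintype.card_fin]
    have h2 : ((inc F p q * (inc F p q).transpose).rank : ℝ) ≤ p := by exact_mod_cast h1
    gcongr
  · refine le_haemers fun d M hd hM => ?_
    have h1 := poly_bound hq hp (d : ℝ) (fun X => (Module.finrank F (W M X) : ℝ)) (by positivity)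
      (fun X Y h => by exact_mod_cast Submodule.finrank_mono (W_mono M h))
      (fun X Y => by
        have h2 := Submodule.finrank_sup_add_finrank_inf_eq (W M X) (W M Y)
        have h3 : W M (X ∩ Y) ≤ W M X ⊓ W M Y :=
          le_inf (W_mono M inter_subset_left) (W_mono M inter_subset_right)
        have h4 := Submodule.finrank_mono h3
        have h5 : Module.finrank F (W M (X ∪ Y)) + Module.finrank F (W M (X ∩ Y)) ≤
            Module.finrank F (W M X) + Module.finrank F (W M Y) := by
          rw [W_union]; omega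
        exact_mod_cast h5)
      (fun S X h => by
        have h2 := W_insert hM S X (by
          intro T hT
          have hdis := h T hT
          have hne : S ≠ T := by
            rintro rfl
            have h3 := Finset.disjoint_self_iff_empty _ |>.1 hdis
            have h4 := S.2
            rw [h3, card_empty] at h4
            omega
          refine ⟨hne, fun hadj => ?_⟩
          rw [SimpleGraph.compl_adj] at hadj
          exact hadj.2 (by
            rw [SimpleGraph.fromRel_adj]
            exact ⟨hne, Or.inl hdis⟩))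
        exact_mod_cast h2)
    rw [W_univ] at h1
    rw [div_mul_eq_mul_div, div_le_iff₀ hqR]
    linarith

section Factor

variable {F : Type*} [Field F]

/-- a matrix of rank at least `s` has an identity matrix of size `s` as a two-sided compression -/
theorem exists_compress {m n : Type*} [Fintype m] [Fintype n] [DecidableEq m]
    (X : Matrix m n F) {s : ℕ} (hs : s ≤ X.rank) :
    ∃ (P : Matrix (Fin s) m F) (Q : Matrix n (Fin s) F), P * X * Q = 1 := by
  classical
  obtain ⟨y, hy⟩ := exists_linearIndependent_of_le_finrank (R := F)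
    (M := LinearMap.range X.mulVecLin) hs
  choose c hc using fun i => (y i).2
  have hy' : LinearIndependent F fun i => ((y i : LinearMap.range X.mulVecLin) : m → F) :=
    hy.map' (LinearMap.range X.mulVecLin).subtype (Submodule.ker_subtype _)
  let T : (Fin s → F) →ₗ[F] (m → F) := Fintype.linearCombination F fun i => ((y i : _) : m → F)
  have hT : LinearMap.ker T = ⊥ := by
    rw [LinearMap.ker_eq_bot]
    exact (linearIndependent_iff_injective_fintypeLinearCombination.1 hy')
  obtain ⟨L, hL⟩ := T.exists_leftInverse_of_injective hT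
  refine ⟨LinearMap.toMatrix' L, Matrix.of fun a i => c i a, ?_⟩
  have h1 : X * (Matrix.of fun a i => c i a : Matrix n (Fin s) F) = LinearMap.toMatrix' T := by
    ext a i
    rw [LinearMap.toMatrix'_apply]
    have h2 : T (fun j => if j = i then 1 else 0) = ((y i : _) : m → F) := by
      simp [T, Fintype.linearCombination_apply]
    have h3 : (X * (Matrix.of fun a i => c i a : Matrix n (Fin s) F)) a i = X.mulVecLin (c i) a := by
      rw [Matrix.mul_apply, Matrix.mulVecLin_apply, Matrix.mulVec, dotProduct]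
      rfl
    rw [h3, hc]
    have h4 : (Pi.single i 1 : Fin s → F) = fun j => if j = i then 1 else 0 := by
      funext j; rw [Pi.single_apply]
    first
      | rw [h2]
      | rw [h4, h2]
  rw [Matrix.mul_assoc, h1, ← LinearMap.toMatrix'_comp, hL, LinearMap.toMatrix'_id]

/-- rank factorisation -/
theorem exists_factor {m n : Type*} [Fintype m] [Fintype n] [DecidableEq n]
    (X : Matrix m n F) :
    ∃ (A : Matrix m (Fin X.rank) F) (B : Matrix (Fin X.rank) n F), X = A * B := by
  classical
  let b : Module.Basis (Fin X.rank) F (LinearMap.range X.mulVecLin) := Module.finBasis F _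
  let e := b.equivFun
  refine ⟨LinearMap.toMatrix' ((LinearMap.range X.mulVecLin).subtype ∘ₗ e.symm.toLinearMap),
    LinearMap.toMatrix' (e.toLinearMap ∘ₗ X.mulVecLin.rangeRestrict), ?_⟩
  rw [← LinearMap.toMatrix'_comp]
  have h1 : ((LinearMap.range X.mulVecLin).subtype ∘ₗ e.symm.toLinearMap) ∘ₗ
      (e.toLinearMap ∘ₗ X.mulVecLin.rangeRestrict) = X.mulVecLin := by
    refine LinearMap.ext fun v => ?_
    simp
  rw [h1, ← Matrix.toLin'_apply', LinearMap.toMatrix'_toLin']

end Factor

section Spectral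

variable {F : Type*} [Field F]

theorem rank_blocks_ge {m n m' n' : Type*} [Fintype m] [Fintype n] [Fintype m'] [Fintype n']
    (A : Matrix m n F) (B : Matrix m' n' F) :
    A.rank + B.rank ≤ (Matrix.fromBlocks A 0 0 B).rank := by
  classical
  obtain ⟨P, Q, h⟩ := exists_compress A le_rfl
  obtain ⟨P', Q', h'⟩ := exists_compress B le_rfl
  have h1 : Matrix.fromBlocks P 0 0 P' * Matrix.fromBlocks A 0 0 B * Matrix.fromBlocks Q 0 0 Q' =
      (1 : Matrix (Fin A.rank ⊕ Fin B.rank) (Fin A.rank ⊕ Fin B.rank) F) := by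
    rw [Matrix.fromBlocks_multiply, Matrix.fromBlocks_multiply]
    simp [h, h']
  have h2 : (1 : Matrix (Fin A.rank ⊕ Fin B.rank) (Fin A.rank ⊕ Fin B.rank) F).rank =
      A.rank + B.rank := by
    rw [Matrix.rank_one]
    simp
  rw [← h2, ← h1]
  exact (Matrix.rank_mul_le_left _ _).trans (Matrix.rank_mul_le_right _ _)

theorem rank_blocks_le {m n m' n' : Type*} [Fintype m] [Fintype n] [Fintype m'] [Fintype n']
    (A : Matrix m n F) (B : Matrix m' n' F) :
    (Matrix.fromBlocks A 0 0 B).rank ≤ A.rank + B.rank := by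
  classical
  obtain ⟨A1, A2, hA⟩ := exists_factor A
  obtain ⟨B1, B2, hB⟩ := exists_factor B
  have h1 : Matrix.fromBlocks A 0 0 B = Matrix.fromBlocks A1 0 0 B1 * Matrix.fromBlocks A2 0 0 B2 := by
    rw [Matrix.fromBlocks_multiply]
    simp [← hA, ← hB]
  rw [h1]
  refine (Matrix.rank_mul_le_left _ _).trans ((Matrix.rank_le_card_width _).trans ?_)
  simp

open Kronecker in
theorem rank_kron_le {m n m' n' : Type*} [Fintype m] [Fintype n] [Fintype m'] [Fintype n']
    (A : Matrix m n F) (B : Matrix m' n' F) :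
    (A ⊗ₖ B).rank ≤ A.rank * B.rank := by
  classical
  obtain ⟨A1, A2, hA⟩ := exists_factor A
  obtain ⟨B1, B2, hB⟩ := exists_factor B
  have h1 : A ⊗ₖ B = (A1 ⊗ₖ B1) * (A2 ⊗ₖ B2) := by
    rw [← Matrix.mul_kronecker_mul, ← hA, ← hB]
  rw [h1]
  refine (Matrix.rank_mul_le_left _ _).trans ((Matrix.rank_le_card_width _).trans ?_)
  simp

theorem rank_ge {V : Type} [Fintype V] {G : SimpleGraph V} {d : ℕ} (hd : 1 ≤ d)
    {M : Matrix (V × Fin d) (V × Fin d) F} (hM : IsRep G d M) :
    haemers F V G * d ≤ M.rank := by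
  have h := haemers_le hd hM
  rwa [le_div_iff₀ (by exact_mod_cast hd)] at h

theorem haemers_nonneg (V : Type) [Fintype V] (G : SimpleGraph V) : 0 ≤ haemers F V G := by
  refine Real.sInf_nonneg ?_
  rintro x ⟨d, M, _, _, rfl⟩
  positivity

theorem haemers_mono (V W : Type) [Fintype V] [Fintype W] (G : SimpleGraph V) (H : SimpleGraph W)
    (h : Nonempty (Gᶜ →g Hᶜ)) : haemers F V G ≤ haemers F W H := by
  obtain ⟨f⟩ := h
  refine le_haemers fun d M hd hM => ?_
  have h1 : IsRep G d (M.submatrix (Prod.map f id) (Prod.map f id)) := by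
    refine ⟨fun v i j => hM.1 (f v) i j, fun u v huv hadj i j => ?_⟩
    have h2 : Gᶜ.Adj u v := by
      rw [SimpleGraph.compl_adj]
      exact ⟨huv, hadj⟩
    have h3 := f.map_adj h2
    rw [SimpleGraph.compl_adj] at h3
    exact hM.2 _ _ h3.1 h3.2 i j
  have h2 := rank_ge hd h1
  have h3 : (M.submatrix (Prod.map f id) (Prod.map f id)).rank ≤ M.rank :=
    Matrix.rank_submatrix_le _ _ _
  exact h2.trans (by exact_mod_cast h3)

/-- the disjoint union -/
abbrev dsum {V W : Type} (G : SimpleGraph V) (H : SimpleGraph W) : SimpleGraph (V ⊕ W) :=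
  SimpleGraph.fromRel (Sum.LiftRel G.Adj H.Adj)

/-- the strong product -/
abbrev sprod {V W : Type} (G : SimpleGraph V) (H : SimpleGraph W) : SimpleGraph (V × W) :=
  SimpleGraph.fromRel fun x y : V × W =>
    (x.1 = y.1 ∨ G.Adj x.1 y.1) ∧ (x.2 = y.2 ∨ H.Adj x.2 y.2)

theorem haemers_add_ge (V W : Type) [Fintype V] [Fintype W] (G : SimpleGraph V)
    (H : SimpleGraph W) : haemers F V G + haemers F W H ≤ haemers F (V ⊕ W) (dsum G H) := by
  refine le_haemers fun d M hd hM => ?_
  let A : Matrix (V × Fin d) (V × Fin d) F :=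
    M.submatrix (fun r => (Sum.inl r.1, r.2)) (fun r => (Sum.inl r.1, r.2))
  let B : Matrix (W × Fin d) (W × Fin d) F :=
    M.submatrix (fun r => (Sum.inr r.1, r.2)) (fun r => (Sum.inr r.1, r.2))
  have hA : IsRep G d A := by
    refine ⟨fun v i j => hM.1 _ i j, fun u v huv hadj i j => hM.2 _ _ ?_ ?_ i j⟩
    · exact fun h => huv (Sum.inl_injective h)
    · rw [SimpleGraph.fromRel_adj]
      rintro ⟨-, h | h⟩
      · exact hadj (Sum.liftRel_inl_inl.1 h)
      · exact hadj (Sum.liftRel_inl_inl.1 h).symm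
  have hB : IsRep H d B := by
    refine ⟨fun v i j => hM.1 _ i j, fun u v huv hadj i j => hM.2 _ _ ?_ ?_ i j⟩
    · exact fun h => huv (Sum.inr_injective h)
    · rw [SimpleGraph.fromRel_adj]
      rintro ⟨-, h | h⟩
      · exact hadj (Sum.liftRel_inr_inr.1 h)
      · exact hadj (Sum.liftRel_inr_inr.1 h).symm
  have h1 : (Matrix.fromBlocks A 0 0 B) =
      M.submatrix (Equiv.sumProdDistrib V W (Fin d)).symm (Equiv.sumProdDistrib V W (Fin d)).symm := by
    ext x y
    rcases x with ⟨v, i⟩ | ⟨w, i⟩ <;> rcases y with ⟨v', j⟩ | ⟨w', j⟩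
    · rfl
    · simp only [Matrix.fromBlocks_apply₁₂, Matrix.zero_apply, Matrix.submatrix_apply]
      refine (hM.2 _ _ ?_ ?_ i j).symm
      · exact Sum.inl_ne_inr
      · rw [SimpleGraph.fromRel_adj]
        rintro ⟨-, h | h⟩ <;> cases h
    · simp only [Matrix.fromBlocks_apply₂₁, Matrix.zero_apply, Matrix.submatrix_apply]
      refine (hM.2 _ _ ?_ ?_ i j).symm
      · exact Sum.inr_ne_inl
      · rw [SimpleGraph.fromRel_adj]
        rintro ⟨-, h | h⟩ <;> cases h
    · rfl
  have h2 : A.rank + B.rank ≤ M.rank := by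
    refine (rank_blocks_ge A B).trans ?_
    rw [h1]
    exact Matrix.rank_submatrix_le _ _ _
  have h3 := rank_ge hd hA
  have h4 := rank_ge hd hB
  have h5 : ((A.rank : ℝ)) + B.rank ≤ M.rank := by exact_mod_cast h2
  linarith

open Kronecker in
theorem haemers_add_le (V W : Type) [Fintype V] [Fintype W] (G : SimpleGraph V)
    (H : SimpleGraph W) : haemers F (V ⊕ W) (dsum G H) ≤ haemers F V G + haemers F W H := by
  classical
  have key : ∀ (d₁ : ℕ) (M₁ : Matrix (V × Fin d₁) (V × Fin d₁) F) (d₂ : ℕ)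
      (M₂ : Matrix (W × Fin d₂) (W × Fin d₂) F), 1 ≤ d₁ → IsRep G d₁ M₁ → 1 ≤ d₂ → IsRep H d₂ M₂ →
      haemers F (V ⊕ W) (dsum G H) ≤ (M₁.rank : ℝ) / d₁ + (M₂.rank : ℝ) / d₂ := by
    intro d₁ M₁ d₂ M₂ hd₁ hM₁ hd₂ hM₂
    let σ₁ : V × Fin (d₁ * d₂) → (V × Fin d₁) × Fin d₂ := fun r =>
      ((r.1, (finProdFinEquiv.symm r.2).1), (finProdFinEquiv.symm r.2).2)
    let σ₂ : W × Fin (d₁ * d₂) → (W × Fin d₂) × Fin d₁ := fun r =>
      ((r.1, (finProdFinEquiv.symm r.2).2), (finProdFinEquiv.symm r.2).1)
    let A : Matrix (V × Fin (d₁ * d₂)) (V × Fin (d₁ * d₂)) F :=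
      (M₁ ⊗ₖ (1 : Matrix (Fin d₂) (Fin d₂) F)).submatrix σ₁ σ₁
    let B : Matrix (W × Fin (d₁ * d₂)) (W × Fin (d₁ * d₂)) F :=
      (M₂ ⊗ₖ (1 : Matrix (Fin d₁) (Fin d₁) F)).submatrix σ₂ σ₂
    have hk : ∀ i j : Fin (d₁ * d₂), i = j ↔ (finProdFinEquiv.symm i).1 = (finProdFinEquiv.symm j).1 ∧
        (finProdFinEquiv.symm i).2 = (finProdFinEquiv.symm j).2 := by
      intro i j
      rw [← Prod.ext_iff, EmbeddingLike.apply_eq_iff_eq]
    have hM : IsRep (dsum G H) (d₁ * d₂) ((Matrix.fromBlocks A 0 0 B).submatrix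
        (Equiv.sumProdDistrib V W (Fin (d₁ * d₂))) (Equiv.sumProdDistrib V W (Fin (d₁ * d₂)))) := by
      refine ⟨?_, ?_⟩
      · rintro (v | w) i j
        · have e : ((Matrix.fromBlocks A 0 0 B).submatrix
            (Equiv.sumProdDistrib V W (Fin (d₁ * d₂))) (Equiv.sumProdDistrib V W (Fin (d₁ * d₂))))
              (Sum.inl v, i) (Sum.inl v, j) = M₁ (v, (finProdFinEquiv.symm i).1)
                (v, (finProdFinEquiv.symm j).1) * (1 : Matrix (Fin d₂) (Fin d₂) F)
                (finProdFinEquiv.symm i).2 (finProdFinEquiv.symm j).2 := rfl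
          rw [e, hM₁.1, Matrix.one_apply]
          have hij := hk i j
          by_cases h1 : (finProdFinEquiv.symm i).1 = (finProdFinEquiv.symm j).1
          · by_cases h2 : (finProdFinEquiv.symm i).2 = (finProdFinEquiv.symm j).2
            · rw [if_pos h1, if_pos h2, if_pos (hij.2 ⟨h1, h2⟩), one_mul]
            · rw [if_neg h2, if_neg fun h => h2 (hij.1 h).2, mul_zero]
          · rw [if_neg h1, if_neg fun h => h1 (hij.1 h).1, zero_mul]
        · have e : ((Matrix.fromBlocks A 0 0 B).submatrix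
            (Equiv.sumProdDistrib V W (Fin (d₁ * d₂))) (Equiv.sumProdDistrib V W (Fin (d₁ * d₂))))
              (Sum.inr w, i) (Sum.inr w, j) = M₂ (w, (finProdFinEquiv.symm i).2)
                (w, (finProdFinEquiv.symm j).2) * (1 : Matrix (Fin d₁) (Fin d₁) F)
                (finProdFinEquiv.symm i).1 (finProdFinEquiv.symm j).1 := rfl
          rw [e, hM₂.1, Matrix.one_apply]
          have hij := hk i j
          by_cases h1 : (finProdFinEquiv.symm i).1 = (finProdFinEquiv.symm j).1
          · by_cases h2 : (finProdFinEquiv.symm i).2 = (finProdFinEquiv.symm j).2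
            · rw [if_pos h1, if_pos h2, if_pos (hij.2 ⟨h1, h2⟩), one_mul]
            · rw [if_neg h2, if_neg fun h => h2 (hij.1 h).2, zero_mul]
          · rw [if_neg h1, if_neg fun h => h1 (hij.1 h).1, mul_zero]
      · rintro (v | w) (v' | w') hne hadj i j
        · have e : ((Matrix.fromBlocks A 0 0 B).submatrix
            (Equiv.sumProdDistrib V W (Fin (d₁ * d₂))) (Equiv.sumProdDistrib V W (Fin (d₁ * d₂))))
              (Sum.inl v, i) (Sum.inl v', j) = M₁ (v, (finProdFinEquiv.symm i).1)
                (v', (finProdFinEquiv.symm j).1) * (1 : Matrix (Fin d₂) (Fin d₂) F)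
                (finProdFinEquiv.symm i).2 (finProdFinEquiv.symm j).2 := rfl
          rw [e, hM₁.2 v v' (fun h => hne (by rw [h])) (fun h => hadj ?_), zero_mul]
          rw [SimpleGraph.fromRel_adj]
          exact ⟨hne, Or.inl (Sum.LiftRel.inl h)⟩
        · rfl
        · rfl
        · have e : ((Matrix.fromBlocks A 0 0 B).submatrix
            (Equiv.sumProdDistrib V W (Fin (d₁ * d₂))) (Equiv.sumProdDistrib V W (Fin (d₁ * d₂))))
              (Sum.inr w, i) (Sum.inr w', j) = M₂ (w, (finProdFinEquiv.symm i).2)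
                (w', (finProdFinEquiv.symm j).2) * (1 : Matrix (Fin d₁) (Fin d₁) F)
                (finProdFinEquiv.symm i).1 (finProdFinEquiv.symm j).1 := rfl
          rw [e, hM₂.2 w w' (fun h => hne (by rw [h])) (fun h => hadj ?_), zero_mul]
          rw [SimpleGraph.fromRel_adj]
          exact ⟨hne, Or.inl (Sum.LiftRel.inr h)⟩
    have h1 : ((Matrix.fromBlocks A 0 0 B).submatrix
        (Equiv.sumProdDistrib V W (Fin (d₁ * d₂))) (Equiv.sumProdDistrib V W (Fin (d₁ * d₂)))).rank ≤
        M₁.rank * d₂ + M₂.rank * d₁ := by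
      refine (Matrix.rank_submatrix_le _ _ _).trans ((rank_blocks_le A B).trans ?_)
      refine Nat.add_le_add ?_ ?_
      · refine (Matrix.rank_submatrix_le _ _ _).trans ((rank_kron_le _ _).trans ?_)
        rw [Matrix.rank_one, Fintype.card_fin]
      · refine (Matrix.rank_submatrix_le _ _ _).trans ((rank_kron_le _ _).trans ?_)
        rw [Matrix.rank_one, Fintype.card_fin]
    have h2 := haemers_le (Nat.mul_pos hd₁ hd₂) hM
    have hd₁' : (0 : ℝ) < d₁ := by exact_mod_cast hd₁
    have hd₂' : (0 : ℝ) < d₂ := by exact_mod_cast hd₂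
    refine h2.trans ?_
    rw [div_le_iff₀ (by push_cast; positivity)]
    have h3 : ((((Matrix.fromBlocks A 0 0 B).submatrix
        (Equiv.sumProdDistrib V W (Fin (d₁ * d₂))) (Equiv.sumProdDistrib V W
          (Fin (d₁ * d₂)))).rank : ℕ) : ℝ) ≤ M₁.rank * d₂ + M₂.rank * d₁ := by exact_mod_cast h1
    refine h3.trans (le_of_eq ?_)
    push_cast
    field_simp
  have h1 : haemers F (V ⊕ W) (dsum G H) - haemers F W H ≤ haemers F V G := by
    refine le_haemers' fun d₁ M₁ hd₁ hM₁ => ?_
    have h2 : haemers F (V ⊕ W) (dsum G H) - (M₁.rank : ℝ) / d₁ ≤ haemers F W H := by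
      refine le_haemers' fun d₂ M₂ hd₂ hM₂ => ?_
      have := key d₁ M₁ d₂ M₂ hd₁ hM₁ hd₂ hM₂
      linarith
    linarith
  linarith

/-- a bound by all products bounds by the product with the infimum -/
theorem le_mul_haemers {V : Type} [Fintype V] {G : SimpleGraph V} {x a : ℝ} (ha : 0 ≤ a)
    (h : ∀ (d : ℕ) (M : Matrix (V × Fin d) (V × Fin d) F), 1 ≤ d → IsRep G d M →
      x ≤ a * ((M.rank : ℝ) / d)) : x ≤ a * haemers F V G := by
  classical
  rcases ha.eq_or_lt with rfl | ha'
  · have h1 := h 1 1 le_rfl ⟨by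
      intro v i j
      rw [Matrix.one_apply]
      simp, by
      intro u v huv _ i j
      rw [Matrix.one_apply_ne]
      exact fun h => huv (Prod.ext_iff.1 h).1⟩
    simpa using h1
  · have h1 : x / a ≤ haemers F V G := le_haemers' fun d M hd hM => by
      rw [div_le_iff₀ ha']
      linarith [h d M hd hM]
    rw [div_le_iff₀ ha'] at h1
    linarith

open Kronecker in
theorem haemers_mul_le (V W : Type) [Fintype V] [Fintype W] (G : SimpleGraph V)
    (H : SimpleGraph W) : haemers F (V × W) (sprod G H) ≤ haemers F V G * haemers F W H := by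
  classical
  have key : ∀ (d₁ : ℕ) (M₁ : Matrix (V × Fin d₁) (V × Fin d₁) F) (d₂ : ℕ)
      (M₂ : Matrix (W × Fin d₂) (W × Fin d₂) F), 1 ≤ d₁ → IsRep G d₁ M₁ → 1 ≤ d₂ → IsRep H d₂ M₂ →
      haemers F (V × W) (sprod G H) ≤ (M₁.rank : ℝ) / d₁ * ((M₂.rank : ℝ) / d₂) := by
    intro d₁ M₁ d₂ M₂ hd₁ hM₁ hd₂ hM₂
    let σ : (V × W) × Fin (d₁ * d₂) → (V × Fin d₁) × (W × Fin d₂) := fun r =>
      ((r.1.1, (finProdFinEquiv.symm r.2).1), (r.1.2, (finProdFinEquiv.symm r.2).2))
    have hk : ∀ i j : Fin (d₁ * d₂), i = j ↔ (finProdFinEquiv.symm i).1 = (finProdFinEquiv.symm j).1 ∧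
        (finProdFinEquiv.symm i).2 = (finProdFinEquiv.symm j).2 := by
      intro i j
      rw [← Prod.ext_iff, EmbeddingLike.apply_eq_iff_eq]
    have e : ∀ v w i v' w' j, ((M₁ ⊗ₖ M₂).submatrix σ σ) ((v, w), i) ((v', w'), j) =
        M₁ (v, (finProdFinEquiv.symm i).1) (v', (finProdFinEquiv.symm j).1) *
          M₂ (w, (finProdFinEquiv.symm i).2) (w', (finProdFinEquiv.symm j).2) :=
      fun _ _ _ _ _ _ => rfl
    have hM : IsRep (sprod G H) (d₁ * d₂) ((M₁ ⊗ₖ M₂).submatrix σ σ) := by
      refine ⟨?_, ?_⟩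
      · rintro ⟨v, w⟩ i j
        rw [e, hM₁.1, hM₂.1]
        have hij := hk i j
        by_cases h1 : (finProdFinEquiv.symm i).1 = (finProdFinEquiv.symm j).1
        · by_cases h2 : (finProdFinEquiv.symm i).2 = (finProdFinEquiv.symm j).2
          · rw [if_pos h1, if_pos h2, if_pos (hij.2 ⟨h1, h2⟩), one_mul]
          · rw [if_neg h2, if_neg fun h => h2 (hij.1 h).2, mul_zero]
        · rw [if_neg h1, if_neg fun h => h1 (hij.1 h).1, zero_mul]
      · rintro ⟨v, w⟩ ⟨v', w'⟩ hne hadj i j
        rw [e]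
        by_cases h1 : v = v' ∨ G.Adj v v'
        · have h2 : ¬ (w = w' ∨ H.Adj w w') := by
            intro h2
            apply hadj
            rw [SimpleGraph.fromRel_adj]
            exact ⟨hne, Or.inl ⟨h1, h2⟩⟩
          rw [not_or] at h2
          rw [hM₂.2 w w' h2.1 h2.2, mul_zero]
        · rw [not_or] at h1
          rw [hM₁.2 v v' h1.1 h1.2, zero_mul]
    have h1 : ((M₁ ⊗ₖ M₂).submatrix σ σ).rank ≤ M₁.rank * M₂.rank :=
      (Matrix.rank_submatrix_le _ _ _).trans (rank_kron_le _ _)
    have h2 := haemers_le (Nat.mul_pos hd₁ hd₂) hM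
    have hd₁' : (0 : ℝ) < d₁ := by exact_mod_cast hd₁
    have hd₂' : (0 : ℝ) < d₂ := by exact_mod_cast hd₂
    refine h2.trans ?_
    rw [div_le_iff₀ (by push_cast; positivity)]
    have h3 : ((((M₁ ⊗ₖ M₂).submatrix σ σ).rank : ℕ) : ℝ) ≤ M₁.rank * M₂.rank := by
      exact_mod_cast h1
    refine h3.trans (le_of_eq ?_)
    push_cast
    field_simp
  refine le_mul_haemers (haemers_nonneg V G) fun d₂ M₂ hd₂ hM₂ => ?_
  rw [mul_comm]
  refine le_mul_haemers (by positivity) fun d₁ M₁ hd₁ hM₁ => ?_
  rw [mul_comm]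
  exact key d₁ M₁ d₂ M₂ hd₁ hM₁ hd₂ hM₂

theorem sum_slice {V W : Type} [Fintype V] [Fintype W] [DecidableEq W] {d : ℕ} (w : W)
    (f : (V × W) × Fin d → F) :
    ∑ c, (if w = c.1.2 then f c else 0) = ∑ x : V × Fin d, f ((x.1, w), x.2) := by
  rw [Fintype.sum_prod_type, Fintype.sum_prod_type, Fintype.sum_prod_type]
  refine Finset.sum_congr rfl fun v _ => ?_
  rw [Finset.sum_comm]
  refine Finset.sum_congr rfl fun k _ => ?_
  simp

theorem haemers_mul_ge (V W : Type) [Fintype V] [Fintype W] (G : SimpleGraph V)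
    (H : SimpleGraph W) : haemers F V G * haemers F W H ≤ haemers F (V × W) (sprod G H) := by
  classical
  refine le_haemers fun d M hd hM => ?_
  have hG0 := haemers_nonneg (F := F) V G
  have hH0 := haemers_nonneg (F := F) W H
  let blk : W → W → Matrix (V × Fin d) (V × Fin d) F := fun w w' =>
    M.submatrix (fun r => ((r.1, w), r.2)) (fun r => ((r.1, w'), r.2))
  have hrep : ∀ w, IsRep G d (blk w w) := by
    intro w
    refine ⟨fun v i j => hM.1 (v, w) i j, fun u v huv hadj i j => ?_⟩
    refine hM.2 (u, w) (v, w) (fun h => huv (Prod.ext_iff.1 h).1) ?_ i j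
    rw [SimpleGraph.fromRel_adj]
    rintro ⟨-, ⟨h | h, -⟩ | ⟨h | h, -⟩⟩
    · exact huv h
    · exact hadj h
    · exact huv h.symm
    · exact hadj h.symm
  have hzero : ∀ w w', w ≠ w' → ¬ H.Adj w w' → blk w w' = 0 := by
    intro w w' hne hadj
    ext ⟨v, i⟩ ⟨v', j⟩
    refine hM.2 (v, w) (v', w') (fun h => hne (Prod.ext_iff.1 h).2) ?_ i j
    rw [SimpleGraph.fromRel_adj]
    rintro ⟨-, ⟨-, h | h⟩ | ⟨-, h | h⟩⟩
    · exact hne h
    · exact hadj h
    · exact hne h.symm
    · exact hadj h.symm
  set s : ℕ := ⌈haemers F V G * d⌉₊ with hs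
  have hs1 : haemers F V G * d ≤ s := Nat.le_ceil _
  rcases Nat.eq_zero_or_pos s with h0 | hpos
  · rw [h0] at hs1
    have hd' : (0 : ℝ) < d := by exact_mod_cast hd
    have h1 : haemers F V G = 0 := by
      have : haemers F V G ≤ 0 := by
        by_contra hcon
        push Not at hcon
        have := mul_pos hcon hd'
        push_cast at hs1
        linarith
      exact le_antisymm this hG0
    rw [h1, zero_mul, zero_mul]
    positivity
  · have hrk : ∀ w, s ≤ (blk w w).rank := fun w => Nat.ceil_le.2 (rank_ge hd (hrep w))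
    choose P Q hPQ using fun w => exists_compress (blk w w) (hrk w)
    let N : Matrix (W × Fin s) (W × Fin s) F :=
      Matrix.of fun r r' => (P r.1 * blk r.1 r'.1 * Q r'.1) r.2 r'.2
    have hN : IsRep H s N := by
      refine ⟨fun w i j => ?_, fun w w' hne hadj i j => ?_⟩
      · have : N (w, i) (w, j) = (P w * blk w w * Q w) i j := rfl
        rw [this, hPQ, Matrix.one_apply]
      · have : N (w, i) (w', j) = (P w * blk w w' * Q w') i j := rfl
        rw [this, hzero w w' hne hadj, Matrix.mul_zero, Matrix.zero_mul, Matrix.zero_apply]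
    let PP : Matrix (W × Fin s) ((V × W) × Fin d) F :=
      Matrix.of fun r c => if r.1 = c.1.2 then P r.1 r.2 (c.1.1, c.2) else 0
    let QQ : Matrix ((V × W) × Fin d) (W × Fin s) F :=
      Matrix.of fun c r => if r.1 = c.1.2 then Q r.1 (c.1.1, c.2) r.2 else 0
    have hfac : N = PP * M * QQ := by
      ext ⟨w, i⟩ ⟨w', j⟩
      have h1 : N (w, i) (w', j) = (P w * blk w w' * Q w') i j := rfl
      rw [h1, Matrix.mul_apply, Matrix.mul_apply]
      have h2 : ∀ c, QQ c (w', j) = if w' = c.1.2 then Q w' (c.1.1, c.2) j else 0 := fun _ => rfl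
      have h3 : ∀ c, PP (w, i) c = if w = c.1.2 then P w i (c.1.1, c.2) else 0 := fun _ => rfl
      simp only [h2, mul_ite, mul_zero]
      rw [sum_slice w' fun c => (PP * M) (w, i) c * Q w' (c.1.1, c.2) j]
      refine Finset.sum_congr rfl fun x _ => ?_
      rw [Matrix.mul_apply, Matrix.mul_apply]
      simp only [h3, ite_mul, zero_mul]
      rw [sum_slice w fun c => P w i (c.1.1, c.2) * M c ((x.1, w'), x.2)]
      rfl
    have h1 : N.rank ≤ M.rank := by
      rw [hfac]
      exact (Matrix.rank_mul_le_left _ _).trans (Matrix.rank_mul_le_right _ _)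
    have h2 := rank_ge hpos hN
    have h3 : ((N.rank : ℕ) : ℝ) ≤ M.rank := by exact_mod_cast h1
    have h4 : haemers F W H * (haemers F V G * d) ≤ haemers F W H * s :=
      mul_le_mul_of_nonneg_left hs1 hH0
    linarith

theorem haemers_one : haemers F (Fin 1) (⊥ : SimpleGraph (Fin 1)) = 1 := by
  classical
  have h1 : ∀ (d : ℕ) (M : Matrix (Fin 1 × Fin d) (Fin 1 × Fin d) F), IsRep ⊥ d M →
      M.rank = d := by
    intro d M hM
    have h2 : M = 1 := by
      ext ⟨v, i⟩ ⟨w, j⟩
      obtain rfl : v = w := Subsingleton.elim _ _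
      rw [hM.1, Matrix.one_apply]
      simp
    rw [h2, Matrix.rank_one]
    simp
  apply le_antisymm
  · have h2 : IsRep (⊥ : SimpleGraph (Fin 1)) 1
        (1 : Matrix (Fin 1 × Fin 1) (Fin 1 × Fin 1) F) := by
      refine ⟨?_, ?_⟩
      · intro v i j
        rw [Matrix.one_apply]
        simp
      · intro u v huv
        exact absurd (Subsingleton.elim _ _) huv
    refine (haemers_le le_rfl h2).trans ?_
    rw [h1 1 1 h2]
    simp
  · refine le_haemers fun d M _ hM => ?_
    rw [h1 d M hM, one_mul]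

end Spectral

/-- The fractional Haemers bound over any field satisfies the axioms of a spectral point, and its
value at the complement of the Kneser graph `K (p : q)` is `p / q` whenever `p ≥ 2 q ≥ 2`. -/
theorem result (F : Type*) [Field F] :
    (∀ (V : Type) [Fintype V] (G : SimpleGraph V), 0 ≤ haemers F V G) ∧
    (∀ (V W : Type) [Fintype V] [Fintype W] (G : SimpleGraph V) (H : SimpleGraph W),
      Nonempty (Gᶜ →g Hᶜ) → haemers F V G ≤ haemers F W H) ∧
    (∀ (V W : Type) [Fintype V] [Fintype W] (G : SimpleGraph V) (H : SimpleGraph W),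
      haemers F (V ⊕ W) (SimpleGraph.fromRel (Sum.LiftRel G.Adj H.Adj)) =
        haemers F V G + haemers F W H) ∧
    (∀ (V W : Type) [Fintype V] [Fintype W] (G : SimpleGraph V) (H : SimpleGraph W),
      haemers F (V × W) (SimpleGraph.fromRel (fun x y : V × W =>
          (x.1 = y.1 ∨ G.Adj x.1 y.1) ∧ (x.2 = y.2 ∨ H.Adj x.2 y.2))) =
        haemers F V G * haemers F W H) ∧
    haemers F (Fin 1) (⊥ : SimpleGraph (Fin 1)) = 1 ∧
    ∀ p q : ℕ, 1 ≤ q → 2 * q ≤ p →
      haemers F {s : Finset (Fin p) // s.card = q}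
        (SimpleGraph.fromRel (fun s t : {s : Finset (Fin p) // s.card = q} =>
          Disjoint s.1 t.1))ᶜ = (p : ℝ) / (q : ℝ) :=
  ⟨fun V _ G => haemers_nonneg V G, fun V W _ _ G H h => haemers_mono V W G H h,
    fun V W _ _ G H => le_antisymm (haemers_add_le V W G H) (haemers_add_ge V W G H),
    fun V W _ _ G H => le_antisymm (haemers_mul_le V W G H) (haemers_mul_ge V W G H),
    haemers_one, fun p q hq hp => haemers_kneser F p q hq hp⟩

end Pool.Agent.Results.MP_0b002e_co.FractionalHaemers
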